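import Pool.Agent.R263.EscC

set_option autoImplicit false

/-!
# Shortest escape path in a polynomial lemniscate: `S(n) → ∞`
-/

open Set MeasureTheory MeasureTheory.Measure Filter Topology
open scoped ENNReal

namespace Pool.Agent.Results.MP_071f48_an.EscapeLengthUnbounded

/-- `f` is monic of degree `n` with all roots in the closed unit disc. -/
def Admissible (n : ℕ) (f : Polynomial ℂ) : Prop :=
  f.Monic ∧ f.natDegree = n ∧ ∀ z : ℂ, f.eval z = 0 → ‖z‖ ≤ 1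

/-- the lemniscate region `|f| ≤ 1` -/
def E (f : Polynomial ℂ) : Set ℂ := {z | ‖f.eval z‖ ≤ 1}

/-- infimum of the lengths of the paths in `E f` from `0` to the unit circle -/
noncomputable def L (f : Polynomial ℂ) : ℝ≥0∞ :=
  ⨅ (γ : C(unitInterval, ℂ)) (_ : γ 0 = 0 ∧ ‖γ 1‖ = 1 ∧ range γ ⊆ E f), μH[1] (range γ)

/-- the worst case over admissible polynomials of degree `n` -/
noncomputable def S (n : ℕ) : ℝ≥0∞ :=
  ⨆ (f : Polynomial ℂ) (_ : Admissible n f), L f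

/-- `S(n) → ∞` as `n → ∞`. -/
theorem result : Tendsto S atTop (𝓝 ⊤) := by
  rw [ENNReal.tendsto_nhds_top_iff_nat]
  intro m
  obtain ⟨n₀, hn₀⟩ := Pool.Agent.R263.Esc.exists_polys (2 * (m + 1))
  filter_upwards [eventually_ge_atTop n₀] with n hn
  obtain ⟨f, hf1, hf2, hf3, hf4⟩ := hn₀ n hn
  have h1 : ((2 * (m + 1) : ℕ) : ℝ≥0∞) / 2 ≤ L f := by
    refine le_iInf₂ fun γ hγ => ?_
    exact hf4 γ hγ.1 hγ.2.1 (fun t => hγ.2.2 ⟨t, rfl⟩)
  have h2 : L f ≤ S n := le_iSup₂ (f := fun f (_ : Admissible n f) => L f) f ⟨hf1, hf2, hf3⟩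
  refine lt_of_lt_of_le ?_ (h1.trans h2)
  have h3 : ((2 * (m + 1) : ℕ) : ℝ≥0∞) / 2 = ((m + 1 : ℕ) : ℝ≥0∞) := by
    rw [Nat.cast_mul, mul_comm, Nat.cast_ofNat]
    exact ENNReal.mul_div_cancel_right (by norm_num) (by norm_num)
  rw [h3]
  exact_mod_cast Nat.lt_succ_self m

end Pool.Agent.Results.MP_071f48_an.EscapeLengthUnbounded
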